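import Mathlib

/-!
# Conway's fried potato problem: equally spaced cuts of the minimal width slab are not optimal

For the triangular prism `x, y ≥ 0`, `x + y ≤ 1`, `0 ≤ z ≤ 1` and every number `n ≥ 2` of pieces
there is an admissible slicing whose largest inradius is strictly smaller than the one of every
equally spaced parallel slicing attached to a pair of parallel supporting planes at minimal
distance.
-/

set_option autoImplicit false

namespace Pool.Agent.Results.MP_1ff74e_co.ShiftedCutsBetter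

/-- Euclidean space of dimension three. -/
abbrev E3 := EuclideanSpace ℝ (Fin 3)

/-- The closed half space `⟨u, x⟩ ≤ t`. -/
def below (u : E3) (t : ℝ) : Set E3 := {x | inner ℝ u x ≤ t}

/-- The closed half space `t ≤ ⟨u, x⟩`. -/
def above (u : E3) (t : ℝ) : Set E3 := {x | t ≤ inner ℝ u x}

/-- `Slicing K S`: the family `S` of pieces is obtained from `K` by plane cuts performed one after
another; each cut (by the plane `⟨u, x⟩ = t`) splits exactly one of the current pieces into two
pieces with nonempty interior and leaves the others untouched. -/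
inductive Slicing (K : Set E3) : Multiset (Set E3) → Prop
  | start : Slicing K {K}
  | cut (P : Set E3) (S : Multiset (Set E3)) (u : E3) (t : ℝ) :
      Slicing K (P ::ₘ S) → u ≠ 0 →
      (interior (P ∩ below u t)).Nonempty → (interior (P ∩ above u t)).Nonempty →
      Slicing K ((P ∩ below u t) ::ₘ (P ∩ above u t) ::ₘ S)

/-- The largest radius of a ball contained in one of the pieces. -/
noncomputable def maxInradius (S : Multiset (Set E3)) : ℝ :=
  sSup {r : ℝ | 0 ≤ r ∧ ∃ P ∈ S, ∃ p : E3, Metric.closedBall p r ⊆ P}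

/-- The planes `⟨u, x⟩ = a` and `⟨u, x⟩ = b`, where `u` is a unit vector, are two distinct parallel
supporting planes of `K`; their distance is `b - a`. -/
def SupportPair (K : Set E3) (u : E3) (a b : ℝ) : Prop :=
  ‖u‖ = 1 ∧ a < b ∧ K ⊆ above u a ∧ K ⊆ below u b ∧ (∃ x ∈ K, inner ℝ u x = a) ∧
    ∃ x ∈ K, inner ℝ u x = b

/-- A pair of parallel supporting planes at the least possible distance. -/
def MinWidthPair (K : Set E3) (u : E3) (a b : ℝ) : Prop :=
  SupportPair K u a b ∧ ∀ (u' : E3) (a' b' : ℝ), SupportPair K u' a' b' → b - a ≤ b' - a'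

/-- The pieces of the equally spaced parallel slicing attached to a pair of supporting planes: the
planes `⟨u, x⟩ = a + i (b - a) / n`, `0 < i < n`, cut `K` into `n` pieces. -/
noncomputable def equalSlabs (K : Set E3) (u : E3) (a b : ℝ) (n : ℕ) : Multiset (Set E3) :=
  (Multiset.range n).map fun i : ℕ =>
    K ∩ above u (a + i * ((b - a) / n)) ∩ below u (a + (i + 1) * ((b - a) / n))

/-! ### The prism -/

/-- The prism. -/
def prism : Set E3 := {x | 0 ≤ x 0 ∧ 0 ≤ x 1 ∧ x 0 + x 1 ≤ 1 ∧ 0 ≤ x 2 ∧ x 2 ≤ 1}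

/-- The direction of the cuts. -/
noncomputable def w : E3 := !₂[1, 1, 0]

lemma inner3 (u x : E3) : inner ℝ u x = u 0 * x 0 + u 1 * x 1 + u 2 * x 2 := by
  simp [PiLp.inner_apply, Fin.sum_univ_three]
  ring

lemma norm_sq3 (u : E3) : ‖u‖ ^ 2 = u 0 ^ 2 + u 1 ^ 2 + u 2 ^ 2 := by
  rw [← real_inner_self_eq_norm_sq, inner3]
  ring

lemma inner_w (x : E3) : inner ℝ w x = x 0 + x 1 := by
  rw [inner3]
  simp [w]

lemma norm_w : ‖w‖ = √2 := by
  have h : ‖w‖ ^ 2 = 2 := by
    rw [norm_sq3]
    simp [w]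
    norm_num
  rw [← h, Real.sqrt_sq (norm_nonneg _)]

lemma w_ne : w ≠ 0 := by
  intro h
  have := norm_w
  rw [h, norm_zero] at this
  have h2 : (0 : ℝ) < √2 := by positivity
  linarith

lemma ball_below {p w : E3} {r β : ℝ} (hr : 0 ≤ r) (h : Metric.closedBall p r ⊆ below w β) :
    inner ℝ w p + r * ‖w‖ ≤ β := by
  rcases eq_or_ne w 0 with hw | hw
  · have := h (Metric.mem_closedBall_self hr)
    simp only [below, Set.mem_ofPred_eq] at this
    simpa [hw] using this
  · have hn : 0 < ‖w‖ := norm_pos_iff.mpr hw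
    have hm : p + (r / ‖w‖) • w ∈ Metric.closedBall p r := by
      rw [Metric.mem_closedBall, dist_eq_norm]
      rw [add_sub_cancel_left, norm_smul, Real.norm_eq_abs, abs_of_nonneg (by positivity),
        div_mul_cancel₀ _ hn.ne']
    have := h hm
    simp only [below, Set.mem_ofPred_eq, inner_add_right, inner_smul_right,
      real_inner_self_eq_norm_sq] at this
    have e : r / ‖w‖ * ‖w‖ ^ 2 = r * ‖w‖ := by
      field_simp
    linarith

lemma ball_above {p w : E3} {r β : ℝ} (hr : 0 ≤ r) (h : Metric.closedBall p r ⊆ above w β) :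
    β ≤ inner ℝ w p - r * ‖w‖ := by
  have h2 : Metric.closedBall p r ⊆ below (-w) (-β) := by
    intro x hx
    have := h hx
    simp only [below, above, Set.mem_ofPred_eq, inner_neg_left] at this ⊢
    linarith
  have := ball_below hr h2
  rw [inner_neg_left, norm_neg] at this
  linarith

/-- Every point of a ball has inner product with `w` close to the one of the centre. -/
lemma inner_ball {p x w : E3} {r : ℝ} (hx : x ∈ Metric.closedBall p r) :
    |inner ℝ w x - inner ℝ w p| ≤ ‖w‖ * r := by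
  rw [← inner_sub_right]
  refine (abs_real_inner_le_norm _ _).trans ?_
  rw [Metric.mem_closedBall, dist_eq_norm] at hx
  exact mul_le_mul_of_nonneg_left hx (norm_nonneg _)

lemma coord_ball {p x : E3} {r : ℝ} (i : Fin 3) (hx : x ∈ Metric.closedBall p r) :
    |x i - p i| ≤ r := by
  rw [Metric.mem_closedBall, dist_eq_norm] at hx
  have := PiLp.norm_apply_le (x - p) i
  simp only [PiLp.sub_apply, Real.norm_eq_abs] at this
  linarith

lemma coord_le {p : E3} {r : ℝ} (hr : 0 ≤ r) (i : Fin 3)
    (h : Metric.closedBall p r ⊆ {x | 0 ≤ x i}) : r ≤ p i := by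
  have h2 : Metric.closedBall p r ⊆ above (EuclideanSpace.single i (1 : ℝ)) 0 := by
    intro x hx
    have := h hx
    simp only [above, Set.mem_ofPred_eq, EuclideanSpace.inner_single_left] at this ⊢
    simpa using this
  have := ball_above hr h2
  simp [EuclideanSpace.inner_single_left] at this
  linarith

lemma prism_convex : Convex ℝ prism := by
  intro x hx y hy a b ha hb hab
  simp only [prism, Set.mem_ofPred_eq, PiLp.add_apply, PiLp.smul_apply, smul_eq_mul] at *
  obtain ⟨x0, x1, x2, x3, x4⟩ := hx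
  obtain ⟨y0, y1, y2, y3, y4⟩ := hy
  refine ⟨by positivity, by positivity, ?_, by positivity, ?_⟩
  · nlinarith
  · nlinarith

lemma prism_closed : IsClosed prism := by
  have c (i : Fin 3) : Continuous fun x : E3 => x i := by fun_prop
  have e : prism = {x : E3 | 0 ≤ x 0} ∩ ({x | 0 ≤ x 1} ∩ ({x | x 0 + x 1 ≤ 1} ∩
      ({x | 0 ≤ x 2} ∩ {x | x 2 ≤ 1}))) := by
    ext x
    simp [prism]
  rw [e]
  exact (isClosed_le continuous_const (c 0)).inter ((isClosed_le continuous_const (c 1)).inter
    ((isClosed_le ((c 0).add (c 1)) continuous_const).inter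
      ((isClosed_le continuous_const (c 2)).inter (isClosed_le (c 2) continuous_const))))

lemma prism_compact : IsCompact prism := by
  refine Metric.isCompact_of_isClosed_isBounded prism_closed ?_
  rw [isBounded_iff_forall_norm_le]
  refine ⟨2, fun x hx => ?_⟩
  obtain ⟨x0, x1, x2, x3, x4⟩ := hx
  have h : ‖x‖ ^ 2 ≤ 2 ^ 2 := by
    rw [norm_sq3]
    nlinarith
  exact abs_le_of_sq_le_sq' h (by norm_num) |>.2

/-- Slabs of the prism have nonempty interior. -/
lemma slab_interior {α β : ℝ} (h0 : 0 ≤ α) (h : α < β) (h1 : β ≤ 1) :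
    (interior (prism ∩ above w α ∩ below w β)).Nonempty := by
  have c (i : Fin 3) : Continuous fun x : E3 => x i := by fun_prop
  refine ⟨!₂[(α + β) / 4, (α + β) / 4, 1 / 2], ?_⟩
  rw [mem_interior]
  refine ⟨{x : E3 | 0 < x 0} ∩ ({x | 0 < x 1} ∩ ({x | α < x 0 + x 1} ∩ ({x | x 0 + x 1 < β} ∩
      ({x | 0 < x 2} ∩ {x | x 2 < 1})))), ?_, ?_, ?_⟩
  · rintro x ⟨x0, x1, x2, x3, x4, x5⟩
    simp only [Set.mem_ofPred_eq] at x0 x1 x2 x3 x4 x5
    simp only [prism, above, below, Set.mem_inter_iff, Set.mem_ofPred_eq, inner_w]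
    refine ⟨⟨⟨?_, ?_, ?_, ?_, ?_⟩, ?_⟩, ?_⟩ <;> linarith
  · exact (isOpen_lt continuous_const (c 0)).inter ((isOpen_lt continuous_const (c 1)).inter
      ((isOpen_lt continuous_const ((c 0).add (c 1))).inter
        ((isOpen_lt ((c 0).add (c 1)) continuous_const).inter
          ((isOpen_lt continuous_const (c 2)).inter (isOpen_lt (c 2) continuous_const)))))
  · simp only [Set.mem_inter_iff, Set.mem_ofPred_eq]
    refine ⟨?_, ?_, ?_, ?_, ?_, ?_⟩
    all_goals simp
    all_goals linarith

lemma prism_above_zero : prism ∩ above w 0 = prism := by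
  ext x
  simp only [prism, above, Set.mem_inter_iff, Set.mem_ofPred_eq, inner_w]
  constructor
  · rintro ⟨h, _⟩
    exact h
  · intro h
    exact ⟨h, by linarith [h.1, h.2.1]⟩

lemma prism_below_one : prism ∩ below w 1 = prism := by
  ext x
  simp only [prism, below, Set.mem_inter_iff, Set.mem_ofPred_eq, inner_w]
  constructor
  · rintro ⟨h, _⟩
    exact h
  · intro h
    exact ⟨h, h.2.2.1⟩

/-- Parallel cuts at `t 1 < t 2 < ⋯` give a slicing. -/
lemma slicing_parallel (t : ℕ → ℝ) (h0 : t 0 = 0) (m : ℕ)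
    (ht : ∀ k, k < m → t k < t (k + 1)) (h1 : ∀ k, k ≤ m → t k < 1) :
    ∀ k, k ≤ m → Slicing prism ((prism ∩ above w (t k)) ::ₘ
      (Multiset.range k).map fun j => prism ∩ above w (t j) ∩ below w (t (j + 1))) := by
  have hpos : ∀ k, k ≤ m → 0 ≤ t k := by
    intro k
    induction k with
    | zero => intro _; rw [h0]
    | succ k ih => intro hk; exact (ih (by omega)).trans (ht k (by omega)).le
  intro k
  induction k with
  | zero =>
    intro _
    rw [h0, prism_above_zero]
    simpa using Slicing.start (K := prism)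
  | succ k ih =>
    intro hk
    have hlt := ht k (by omega)
    have hp := hpos k (by omega)
    have e : prism ∩ above w (t k) ∩ above w (t (k + 1)) = prism ∩ above w (t (k + 1)) := by
      ext x
      simp only [above, Set.mem_inter_iff, Set.mem_ofPred_eq]
      constructor
      · rintro ⟨⟨h, _⟩, h2⟩
        exact ⟨h, h2⟩
      · rintro ⟨h, h2⟩
        exact ⟨⟨h, by linarith⟩, h2⟩
    have i1 := slab_interior hp hlt (h1 _ hk).le
    have i2 : (interior (prism ∩ above w (t (k + 1)))).Nonempty := by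
      have := slab_interior (hp.trans hlt.le) (h1 _ hk) le_rfl
      rwa [Set.inter_right_comm, prism_below_one] at this
    have := Slicing.cut _ _ w (t (k + 1)) (ih (by omega)) w_ne i1 (by rw [e]; exact i2)
    rw [e, Multiset.cons_swap] at this
    rw [Multiset.range_succ, Multiset.map_cons]
    exact this

/-! ### The pairs of supporting planes at minimal distance -/

lemma vertex_mem (x y z : ℝ) (hx : 0 ≤ x) (hy : 0 ≤ y) (hxy : x + y ≤ 1) (hz : 0 ≤ z)
    (hz1 : z ≤ 1) : (!₂[x, y, z] : E3) ∈ prism := by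
  simp only [prism, Set.mem_ofPred_eq]
  simp
  exact ⟨hx, hy, hxy, hz, hz1⟩

lemma inner_vertex (u : E3) (x y z : ℝ) :
    inner ℝ u (!₂[x, y, z] : E3) = u 0 * x + u 1 * y + u 2 * z := by
  rw [inner3]
  simp

lemma norm_one_of {u : E3} (h : u 0 ^ 2 + u 1 ^ 2 + u 2 ^ 2 = 1) : ‖u‖ = 1 := by
  have h2 : ‖u‖ ^ 2 = 1 := by rw [norm_sq3, h]
  nlinarith [norm_nonneg u]

/-- The two planes `x + y = 0` and `x + y = 1`. -/
lemma support_v : SupportPair prism (!₂[√2 / 2, √2 / 2, 0] : E3) 0 (√2 / 2) := by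
  have hs : √2 ^ 2 = 2 := Real.sq_sqrt (by norm_num)
  have hs0 : 0 < √2 := by positivity
  refine ⟨norm_one_of ?_, by positivity, ?_, ?_, ⟨!₂[0, 0, 0], ?_, ?_⟩, ⟨!₂[1, 0, 0], ?_, ?_⟩⟩
  · simp
    nlinarith
  · rintro x ⟨x0, x1, x2, x3, x4⟩
    simp only [above, Set.mem_ofPred_eq, inner3]
    simp
    positivity
  · rintro x ⟨x0, x1, x2, x3, x4⟩
    simp only [below, Set.mem_ofPred_eq, inner3]
    simp
    nlinarith
  · exact vertex_mem _ _ _ le_rfl le_rfl (by norm_num) le_rfl (by norm_num)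
  · rw [inner_vertex]
    simp
  · exact vertex_mem _ _ _ (by norm_num) le_rfl (by norm_num) le_rfl (by norm_num)
  · rw [inner_vertex]
    simp

lemma key_dir {a b c W : ℝ} (hn : a ^ 2 + b ^ 2 + c ^ 2 = 1) (hW : 0 < W) (hW2 : W ^ 2 ≤ 1 / 2)
    (ha : |a| + |c| ≤ W) (hb : |b| + |c| ≤ W) (hab : |a - b| ≤ W) :
    a = b ∧ c = 0 ∧ a ^ 2 = 1 / 2 := by
  have a0 := abs_nonneg a
  have b0 := abs_nonneg b
  have c0 := abs_nonneg c
  have a2 := sq_abs a
  have b2 := sq_abs b
  have c2 := sq_abs c
  have hc : |c| = 0 := by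
    by_contra hne
    have hcpos : 0 < |c| := lt_of_le_of_ne c0 (Ne.symm hne)
    have e1 : |a| ^ 2 ≤ (W - |c|) ^ 2 := by
      apply pow_le_pow_left₀ a0
      linarith
    have e2 : |b| ^ 2 ≤ (W - |c|) ^ 2 := by
      apply pow_le_pow_left₀ b0
      linarith
    have e3 : 0 < |c| * W := by positivity
    have e4 : |c| * |c| ≤ |c| * W := by
      apply mul_le_mul_of_nonneg_left _ c0
      linarith
    nlinarith
  have hc0 : c = 0 := abs_eq_zero.mp hc
  rw [hc] at ha hb
  have e1 : |a| ^ 2 ≤ W ^ 2 := pow_le_pow_left₀ a0 (by linarith) 2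
  have e2 : |b| ^ 2 ≤ W ^ 2 := pow_le_pow_left₀ b0 (by linarith) 2
  rw [hc0] at hn
  have ea : a ^ 2 = 1 / 2 := by nlinarith
  have eb : b ^ 2 = 1 / 2 := by nlinarith
  refine ⟨?_, hc0, ea⟩
  have : (a - b) * (a + b) = 0 := by nlinarith
  rcases mul_eq_zero.mp this with h | h
  · linarith
  · exfalso
    have hb' : b = -a := by linarith
    rw [hb'] at hab
    have e3 : |a - -a| ^ 2 ≤ W ^ 2 := pow_le_pow_left₀ (abs_nonneg _) hab 2
    rw [sq_abs] at e3
    nlinarith

/-- The direction of a pair of supporting planes at minimal distance. -/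
lemma min_dir {u : E3} {a b : ℝ} (h : MinWidthPair prism u a b) :
    (∀ x : E3, inner ℝ u x = √2 / 2 * (x 0 + x 1)) ∧ a = 0 ∧ b = √2 / 2 ∨
      (∀ x : E3, inner ℝ u x = -(√2 / 2 * (x 0 + x 1))) ∧ a = -(√2 / 2) ∧ b = 0 := by
  obtain ⟨⟨hu, hab, hA, hB, ⟨xa, hxa, hxa2⟩, ⟨xb, hxb, hxb2⟩⟩, hmin⟩ := h
  have hs : √2 ^ 2 = 2 := Real.sq_sqrt (by norm_num)
  have hs0 : 0 < √2 := by positivity
  have hW : b - a ≤ √2 / 2 := by
    have := hmin _ _ _ support_v
    linarith
  have hn : u 0 ^ 2 + u 1 ^ 2 + u 2 ^ 2 = 1 := by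
    rw [← norm_sq3, hu]
    norm_num
  have V (x y z : ℝ) (hx : 0 ≤ x) (hy : 0 ≤ y) (hxy : x + y ≤ 1) (hz : 0 ≤ z) (hz1 : z ≤ 1) :
      a ≤ u 0 * x + u 1 * y + u 2 * z ∧ u 0 * x + u 1 * y + u 2 * z ≤ b := by
    have h1 := hA (vertex_mem x y z hx hy hxy hz hz1)
    have h2 := hB (vertex_mem x y z hx hy hxy hz hz1)
    simp only [above, below, Set.mem_ofPred_eq, inner_vertex] at h1 h2
    exact ⟨h1, h2⟩
  obtain ⟨v1, v1'⟩ := V 0 0 0 le_rfl le_rfl (by norm_num) le_rfl (by norm_num)
  obtain ⟨v2, v2'⟩ := V 1 0 0 (by norm_num) le_rfl (by norm_num) le_rfl (by norm_num)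
  obtain ⟨v3, v3'⟩ := V 0 1 0 le_rfl (by norm_num) (by norm_num) le_rfl (by norm_num)
  obtain ⟨v4, v4'⟩ := V 0 0 1 le_rfl le_rfl (by norm_num) (by norm_num) (by norm_num)
  obtain ⟨v5, v5'⟩ := V 1 0 1 (by norm_num) le_rfl (by norm_num) (by norm_num) (by norm_num)
  obtain ⟨v6, v6'⟩ := V 0 1 1 le_rfl (by norm_num) (by norm_num) (by norm_num) (by norm_num)
  simp only [mul_zero, mul_one, add_zero, zero_add] at v1 v1' v2 v2' v3 v3' v4 v4' v5 v5' v6 v6'
  have k := key_dir (W := b - a) hn (by linarith) (by nlinarith)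
    (by rcases abs_cases (u 0) with h1 | h1 <;> rcases abs_cases (u 2) with h2 | h2 <;> linarith)
    (by rcases abs_cases (u 1) with h1 | h1 <;> rcases abs_cases (u 2) with h2 | h2 <;> linarith)
    (by rcases abs_cases (u 0 - u 1) with h1 | h1 <;> linarith)
  obtain ⟨k1, k2, k3⟩ := k
  obtain ⟨p0, p1, p2, p3, p4⟩ := hxa
  obtain ⟨q0, q1, q2, q3, q4⟩ := hxb
  have hprod : (u 0 - √2 / 2) * (u 0 + √2 / 2) = 0 := by nlinarith
  rcases mul_eq_zero.mp hprod with h | h
  · left
    have e0 : u 0 = √2 / 2 := by linarith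
    have e1 : u 1 = √2 / 2 := by linarith
    have hin : ∀ x : E3, inner ℝ u x = √2 / 2 * (x 0 + x 1) := by
      intro x
      rw [inner3, e0, e1, k2]
      ring
    refine ⟨hin, ?_, ?_⟩
    · rw [hin] at hxa2
      have : 0 ≤ a := by
        rw [← hxa2]
        positivity
      linarith
    · linarith
  · right
    have e0 : u 0 = -(√2 / 2) := by linarith
    have e1 : u 1 = -(√2 / 2) := by linarith
    have hin : ∀ x : E3, inner ℝ u x = -(√2 / 2 * (x 0 + x 1)) := by
      intro x
      rw [inner3, e0, e1, k2]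
      ring
    refine ⟨hin, ?_, ?_⟩
    · linarith
    · rw [hin] at hxb2
      have : b ≤ 0 := by
        rw [← hxb2]
        have : 0 ≤ √2 / 2 * (xb 0 + xb 1) := by positivity
        linarith
      linarith

/-- There is a pair of supporting planes at minimal distance. -/
lemma exists_min : MinWidthPair prism (!₂[√2 / 2, √2 / 2, 0] : E3) 0 (√2 / 2) := by
  refine ⟨support_v, ?_⟩
  intro u a b ⟨hu, hab, hA, hB, _, _⟩
  have hs : √2 ^ 2 = 2 := Real.sq_sqrt (by norm_num)
  have hs0 : 0 < √2 := by positivity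
  by_contra hlt
  push Not at hlt
  have hn : u 0 ^ 2 + u 1 ^ 2 + u 2 ^ 2 = 1 := by
    rw [← norm_sq3, hu]
    norm_num
  have V (x y z : ℝ) (hx : 0 ≤ x) (hy : 0 ≤ y) (hxy : x + y ≤ 1) (hz : 0 ≤ z) (hz1 : z ≤ 1) :
      a ≤ u 0 * x + u 1 * y + u 2 * z ∧ u 0 * x + u 1 * y + u 2 * z ≤ b := by
    have h1 := hA (vertex_mem x y z hx hy hxy hz hz1)
    have h2 := hB (vertex_mem x y z hx hy hxy hz hz1)
    simp only [above, below, Set.mem_ofPred_eq, inner_vertex] at h1 h2
    exact ⟨h1, h2⟩
  obtain ⟨v1, v1'⟩ := V 0 0 0 le_rfl le_rfl (by norm_num) le_rfl (by norm_num)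
  obtain ⟨v2, v2'⟩ := V 1 0 0 (by norm_num) le_rfl (by norm_num) le_rfl (by norm_num)
  obtain ⟨v3, v3'⟩ := V 0 1 0 le_rfl (by norm_num) (by norm_num) le_rfl (by norm_num)
  obtain ⟨v4, v4'⟩ := V 0 0 1 le_rfl le_rfl (by norm_num) (by norm_num) (by norm_num)
  obtain ⟨v5, v5'⟩ := V 1 0 1 (by norm_num) le_rfl (by norm_num) (by norm_num) (by norm_num)
  obtain ⟨v6, v6'⟩ := V 0 1 1 le_rfl (by norm_num) (by norm_num) (by norm_num) (by norm_num)
  simp only [mul_zero, mul_one, add_zero, zero_add] at v1 v1' v2 v2' v3 v3' v4 v4' v5 v5' v6 v6'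
  have k := key_dir (W := b - a) hn (by linarith) (by nlinarith)
    (by rcases abs_cases (u 0) with h1 | h1 <;> rcases abs_cases (u 2) with h2 | h2 <;> linarith)
    (by rcases abs_cases (u 1) with h1 | h1 <;> rcases abs_cases (u 2) with h2 | h2 <;> linarith)
    (by rcases abs_cases (u 0 - u 1) with h1 | h1 <;> linarith)
  obtain ⟨k1, k2, k3⟩ := k
  have hprod : (u 0 - √2 / 2) * (u 0 + √2 / 2) = 0 := by nlinarith
  rcases mul_eq_zero.mp hprod with h | h
  · linarith
  · linarith

/-! ### Inradii -/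

lemma le_one_of_ball {p : E3} {r : ℝ} (hr : 0 ≤ r) {P : Set E3} (hP : P ⊆ prism)
    (h : Metric.closedBall p r ⊆ P) : r ≤ 1 := by
  have h1 := coord_le (p := p) hr 0 (fun x hx => (hP (h hx)).1)
  obtain ⟨p0, p1, p2, p3, p4⟩ := hP (h (Metric.mem_closedBall_self hr))
  linarith

/-- The last slab, next to the hypotenuse, contains a ball of diameter equal to its thickness. -/
lemma ball_in (n : ℕ) (hn : 2 ≤ n) : ∃ p : E3, ∀ x ∈ Metric.closedBall p (√2 / (4 * n)),
    x ∈ prism ∧ 1 - 1 / n ≤ x 0 + x 1 := by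
  have hs : √2 ^ 2 = 2 := Real.sq_sqrt (by norm_num)
  have hs0 : 0 < √2 := by positivity
  have hn' : (2 : ℝ) ≤ n := by exact_mod_cast hn
  have hinv : (1 : ℝ) / n ≤ 1 / 2 := one_div_le_one_div_of_le (by norm_num) hn'
  have hinv0 : (0 : ℝ) < 1 / n := by positivity
  have hr : √2 / (4 * n) = √2 / 4 * (1 / n) := by
    field_simp
  have hs2 : √2 ≤ 3 / 2 := by nlinarith
  have hr1 : √2 / (4 * n) ≤ 3 / 16 := by
    rw [hr]
    nlinarith
  refine ⟨!₂[1 / 2 - 1 / n / 4, 1 / 2 - 1 / n / 4, 1 / 2], fun x hx => ?_⟩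
  have hw := inner_ball (w := w) hx
  rw [inner_w, inner_w, norm_w] at hw
  have c0 := coord_ball 0 hx
  have c1 := coord_ball 1 hx
  have c2 := coord_ball 2 hx
  simp only [Matrix.cons_val_zero, Matrix.cons_val_one, Matrix.cons_val] at hw c0 c1 c2
  rw [abs_le] at hw c0 c1 c2
  have e : √2 * (√2 / (4 * n)) = 1 / n / 2 := by
    rw [hr]
    nlinarith
  rw [e] at hw
  refine ⟨⟨?_, ?_, ?_, ?_, ?_⟩, ?_⟩ <;> linarith [hw.1, hw.2, c0.1, c0.2, c1.1, c1.2, c2.1, c2.2]

lemma le_maxInradius {S : Multiset (Set E3)} (hS : ∀ P ∈ S, P ⊆ prism) {P : Set E3} (hP : P ∈ S)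
    {p : E3} {r : ℝ} (hr : 0 ≤ r) (h : Metric.closedBall p r ⊆ P) : r ≤ maxInradius S := by
  refine le_csSup ⟨1, ?_⟩ ⟨hr, P, hP, p, h⟩
  rintro r' ⟨hr', P', hP', p', h'⟩
  exact le_one_of_ball hr' (hS _ hP') h'

/-- The equally spaced slicings attached to minimal pairs of supporting planes. -/
lemma equal_lower {u : E3} {a b : ℝ} (h : MinWidthPair prism u a b) (n : ℕ) (hn : 2 ≤ n) :
    √2 / (4 * n) ≤ maxInradius (equalSlabs prism u a b n) := by
  have hs : √2 ^ 2 = 2 := Real.sq_sqrt (by norm_num)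
  have hs0 : 0 < √2 := by positivity
  have hn' : (2 : ℝ) ≤ n := by exact_mod_cast hn
  have hn0 : (n : ℝ) ≠ 0 := by positivity
  obtain ⟨p, hp⟩ := ball_in n hn
  have hsub : ∀ P ∈ equalSlabs prism u a b n, P ⊆ prism := by
    intro P hP
    simp only [equalSlabs, Multiset.mem_map, Multiset.mem_range] at hP
    obtain ⟨i, _, rfl⟩ := hP
    intro x hx
    exact hx.1.1
  rcases min_dir h with ⟨hin, rfl, rfl⟩ | ⟨hin, rfl, rfl⟩
  · refine le_maxInradius hsub (P := prism ∩ above u (0 + ((n - 1 : ℕ) : ℝ) * ((√2 / 2 - 0) / n)) ∩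
      below u (0 + (((n - 1 : ℕ) : ℝ) + 1) * ((√2 / 2 - 0) / n))) ?_ (by positivity) (p := p) ?_
    · simp only [equalSlabs, Multiset.mem_map, Multiset.mem_range]
      exact ⟨n - 1, by omega, rfl⟩
    · intro x hx
      obtain ⟨h1, h2⟩ := hp x hx
      have e : ((n - 1 : ℕ) : ℝ) = n - 1 := by
        rw [Nat.cast_sub (by omega)]
        norm_num
      refine ⟨⟨h1, ?_⟩, ?_⟩
      · simp only [above, Set.mem_ofPred_eq, hin, e]
        have : 0 + ((n : ℝ) - 1) * ((√2 / 2 - 0) / n) = √2 / 2 * (1 - 1 / n) := by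
          field_simp
          ring
        rw [this]
        exact mul_le_mul_of_nonneg_left h2 (by positivity)
      · simp only [below, Set.mem_ofPred_eq, hin, e]
        have : 0 + ((n : ℝ) - 1 + 1) * ((√2 / 2 - 0) / n) = √2 / 2 * 1 := by
          field_simp
          ring
        rw [this]
        exact mul_le_mul_of_nonneg_left h1.2.2.1 (by positivity)
  · refine le_maxInradius hsub (P := prism ∩
      above u (-(√2 / 2) + ((0 : ℕ) : ℝ) * ((0 - -(√2 / 2)) / n)) ∩
      below u (-(√2 / 2) + (((0 : ℕ) : ℝ) + 1) * ((0 - -(√2 / 2)) / n))) ?_ (by positivity)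
      (p := p) ?_
    · simp only [equalSlabs, Multiset.mem_map, Multiset.mem_range]
      exact ⟨0, by omega, rfl⟩
    · intro x hx
      obtain ⟨h1, h2⟩ := hp x hx
      refine ⟨⟨h1, ?_⟩, ?_⟩
      · simp only [above, Set.mem_ofPred_eq, hin]
        have : √2 / 2 * (x 0 + x 1) ≤ √2 / 2 * 1 :=
          mul_le_mul_of_nonneg_left h1.2.2.1 (by positivity)
        push_cast
        linarith
      · simp only [below, Set.mem_ofPred_eq, hin]
        have : √2 / 2 * (1 - 1 / n) ≤ √2 / 2 * (x 0 + x 1) :=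
          mul_le_mul_of_nonneg_left h2 (by positivity)
        have e : -(√2 / 2) + (((0 : ℕ) : ℝ) + 1) * ((0 - -(√2 / 2)) / n) =
            -(√2 / 2 * (1 - 1 / n)) := by
          push_cast
          field_simp
          ring
        rw [e]
        linarith

/-- **Theorem.** There is a convex body `K` in three-dimensional space (a triangular prism) which
has a pair of parallel supporting planes at minimal distance, such that for every `n ≥ 2` some
admissible slicing of `K` into `n` pieces has a strictly smaller largest inradius than all the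
equally spaced parallel slicings attached to minimal pairs of supporting planes. -/
theorem result : ∃ K : Set E3, Convex ℝ K ∧ IsCompact K ∧ (interior K).Nonempty ∧
    (∃ (u : E3) (a b : ℝ), MinWidthPair K u a b) ∧
    ∀ n : ℕ, 2 ≤ n → ∃ S : Multiset (Set E3), Slicing K S ∧ Multiset.card S = n ∧
      ∀ (u : E3) (a b : ℝ), MinWidthPair K u a b →
        maxInradius S < maxInradius (equalSlabs K u a b n) := by
  have hs : √2 ^ 2 = 2 := Real.sq_sqrt (by norm_num)
  have hs0 : 0 < √2 := by positivity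
  have hs1 : 7 / 5 < √2 := by
    rw [Real.lt_sqrt (by norm_num)]
    norm_num
  refine ⟨prism, prism_convex, prism_compact, ?_, ⟨_, _, _, exists_min⟩, ?_⟩
  · have := slab_interior (α := 0) (β := 1) le_rfl (by norm_num) le_rfl
    rwa [prism_above_zero, prism_below_one] at this
  intro n hn
  have hn' : (2 : ℝ) ≤ n := by exact_mod_cast hn
  set m : ℕ := n - 1 with hm
  have hmn : (m : ℝ) = n - 1 := by
    rw [hm, Nat.cast_sub (by omega)]
    norm_num
  have hm1 : (1 : ℝ) ≤ m := by linarith
  have hm0 : (m : ℝ) ≠ 0 := by positivity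
  set c : ℝ := 6 / 5 / n with hc
  have hc0 : 0 < c := by positivity
  have hc1 : c < 1 := by
    rw [hc, div_lt_one (by linarith)]
    linarith
  have hcn : c * n = 6 / 5 := by
    rw [hc]
    field_simp
  set δ : ℝ := (1 - c) / m with hδ
  have hδ0 : 0 < δ := by
    rw [hδ]
    apply div_pos <;> linarith
  have hδm : δ * m = 1 - c := by
    rw [hδ]
    field_simp
  let t : ℕ → ℝ := fun j => if j = 0 then 0 else c + δ * (j - 1)
  have t0 : t 0 = 0 := by simp [t]
  have tS (j : ℕ) : t (j + 1) = c + δ * j := by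
    simp [t]
  have hmpos : 1 ≤ m := by omega
  have hsl := slicing_parallel t t0 m
    (by
      intro k hk
      rcases k with _ | k
      · rw [t0, tS]
        simpa using hc0
      · rw [tS, tS]
        push_cast
        nlinarith)
    (by
      intro k hk
      rcases k with _ | k
      · rw [t0]
        norm_num
      · rw [tS]
        have : ((k + 1 : ℕ) : ℝ) ≤ m := by exact_mod_cast hk
        push_cast at this
        nlinarith)
    m le_rfl
  refine ⟨_, hsl, ?_, ?_⟩
  · simp
    omega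
  intro u a b hub
  refine lt_of_le_of_lt ?_ (lt_of_lt_of_le ?_ (equal_lower hub n hn)) (b := max (c / (2 + √2)) (δ / (2 * √2)))
  · refine Real.sSup_le ?_ (by positivity)
    rintro r ⟨hr, P, hP, p, hball⟩
    have slab {α β : ℝ} (h1 : Metric.closedBall p r ⊆ above w α)
        (h2 : Metric.closedBall p r ⊆ below w β) (h3 : β - α ≤ δ) : r ≤ δ / (2 * √2) := by
      have a1 := ball_above hr h1
      have a2 := ball_below hr h2
      rw [norm_w] at a1 a2
      rw [le_div_iff₀ (by positivity)]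
      linarith
    simp only [Multiset.mem_cons, Multiset.mem_map, Multiset.mem_range] at hP
    rcases hP with rfl | ⟨j, hj, rfl⟩
    · refine le_max_of_le_right (slab (α := t m) (β := 1) (fun x hx => (hball hx).2) ?_ ?_)
      · intro x hx
        have := (hball hx).1
        simp only [below, Set.mem_ofPred_eq, inner_w]
        exact this.2.2.1
      · obtain ⟨m', hm'⟩ : ∃ m', m = m' + 1 := ⟨m - 1, by omega⟩
        rw [hm', tS]
        rw [hm'] at hδm
        push_cast at hδm
        linarith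
    · rcases j with _ | j
      · refine le_max_of_le_left ?_
        have h0 := coord_le (p := p) hr 0 (fun x hx => (hball hx).1.1.1)
        have h1 := coord_le (p := p) hr 1 (fun x hx => (hball hx).1.1.2.1)
        have h2 := ball_below hr (w := w) (β := t (0 + 1)) (fun x hx => (hball hx).2)
        rw [tS, norm_w, inner_w] at h2
        push_cast at h2
        rw [le_div_iff₀ (by positivity)]
        linarith
      · refine le_max_of_le_right (slab (α := t (j + 1)) (β := t (j + 1 + 1))
          (fun x hx => (hball hx).1.2) (fun x hx => (hball hx).2) ?_)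
        rw [tS, tS]
        push_cast
        linarith
  · rw [max_lt_iff]
    constructor
    · rw [div_lt_div_iff₀ (by positivity) (by positivity)]
      nlinarith
    · rw [div_lt_div_iff₀ (by positivity) (by positivity)]
      have : δ * n < 1 := by
        have : δ * m < m := by nlinarith
        have h1 : δ * n = δ * m + δ := by rw [hmn]; ring
        have h2 : (δ * n) * m = (1 - c) * n := by
          rw [h1]
          have : (δ * m + δ) * m = δ * m * (m + 1) := by ring
          rw [this, hδm, hmn]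
          ring
        have h3 : (1 - c) * n = n - 6 / 5 := by linarith
        have h4 : (δ * n) * m < 1 * m := by
          rw [h2, h3, hmn]
          linarith
        exact lt_of_mul_lt_mul_right h4 (by linarith)
      nlinarith

end Pool.Agent.Results.MP_1ff74e_co.ShiftedCutsBetter
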